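import Pool.Agent.U79.MG.E

set_option autoImplicit false

/-!
# The exceptional amplitudes of the Lenstra-Pomerance-Wagstaff law: a comeagre set of dimension one

For real `β > 0` and a prime `p` let `W β p` be the `p`-rough part (the product, with multiplicity,
of the prime factors larger than `p`) of the largest integer below `β * 2 ^ p`.  For `β = 1` this is
the Mersenne number `2 ^ p - 1` itself.  The exponents of `β` are the primes `p` with `W β p` prime,
and `M β n` is the number of the exponents `p ≤ n`.  The starting result `BaseTwoLaw` says that for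
almost every `β > 0` the quotient `M β n / log n` converges to `e ^ γ / log 2`, the law the question
asks for at `β = 1`.  Here we show that the exceptional null set is large, in the sense of category
and in the sense of Hausdorff dimension:

* for all `β > 0` outside a meagre set every number `v ≥ 0` is a limit point of `M β n / log n`; for
  infinitely many `n` all the primes `r` with `n ≤ r < β 2 ^ n - 1` are exponents (so there are
  infinitely many `n` such that almost all primes up to `n` are exponents); on the other hand, for
  every function `F` there are, for all `β > 0` outside a meagre set, infinitely many `n` such that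
  there are no exponents from `n + 1` to `F n`;
* in every interval, and even simultaneously for all the multiples `c_j β` with any given sequence
  `c_j > 0`, the set of the `β` for which, for infinitely many `n`, at least the proportion
  `1 - t` of the primes up to `n` are exponents has Hausdorff dimension at least `t` (`0 < t < 1`),
  and the set of the `β` for which `M (c_j β) n / log n` is unbounded for all `j` has
  Hausdorff dimension one.

The law is an almost sure law only, and every proof of it at `β = 1` has to use more of the number `1`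
than that it lies outside some meagre set or some set of small dimension.

Proof.  If `N` is the number at `p`, with rough part `ℓ`, and the binary digits of `β` after the `p`-th
one vanish up to the `q`-th one, then the rough part at all `r ≤ q`, `r < ℓ`, is again `ℓ`.  By the law
for almost every `β` there are infinitely many such `p` with `ℓ` prime, and `ℓ > K p` because smooth
numbers are rare; the mass transference principle (`Pool.Agent.R485.RG.dimI`, countably many families)
gives the dimensions.
-/

namespace Pool.Agent.Results.MP_9b2bac_nt.GenericAmplitudes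

open Filter Topology Pool.Agent.U79.MG

/-- `M 1` counts the Mersenne prime exponents; the behaviour of `M β` for all `β > 0` outside a meagre
set; the dimensions of sets of exceptional amplitudes. -/
theorem result :
    (∀ n : ℕ, M 1 n =
      ((Finset.range (n + 1)).filter (fun p => p.Prime ∧ (2 ^ p - 1).Prime)).card) ∧
    (∀ᶠ β : ℝ in residual ℝ, 0 < β →
      (∃ᶠ n : ℕ in atTop,
        ∀ r : ℕ, r.Prime → n ≤ r → (r : ℝ) < β * 2 ^ n - 1 → (W β r).Prime) ∧
      (∀ ε : ℝ, 0 < ε → ∃ᶠ n : ℕ in atTop, (1 - ε) * Nat.primeCounting n ≤ M β n) ∧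
      (∀ v ε : ℝ, 0 ≤ v → 0 < ε →
        ∃ᶠ n : ℕ in atTop, |(M β n : ℝ) / Real.log n - v| < ε)) ∧
    (∀ F : ℕ → ℕ, ∀ᶠ β : ℝ in residual ℝ, 0 < β →
      ∃ᶠ n : ℕ in atTop, ∀ r : ℕ, n < r → r ≤ F n → ¬ (W β r).Prime) ∧
    (∀ (c : ℕ → ℝ) (a b : ℝ), (∀ j, 0 < c j) → 0 ≤ a → a < b →
      (∀ t : ℝ, 0 < t → t < 1 →
        ENNReal.ofReal t ≤ dimH {β : ℝ | β ∈ Set.Icc a b ∧ ∀ j, ∀ ε : ℝ, 0 < ε →
          ∃ᶠ n : ℕ in atTop, (1 - t - ε) * Nat.primeCounting n ≤ M (c j * β) n}) ∧
      dimH {β : ℝ | β ∈ Set.Icc a b ∧ ∀ j, ∀ v : ℝ,
        ∃ᶠ n : ℕ in atTop, v < (M (c j * β) n : ℝ) / Real.log n} = 1) := by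
  refine ⟨M_one, ?_, generic_gaps, fun c a b hc ha hab => ⟨fun t ht0 ht1 => ?_, ?_⟩⟩
  · filter_upwards [generic_windows, generic_gaps (fun n => 2 ^ (n ^ 2))] with β h1 h2 hβ
    have h3 : ∀ ε : ℝ, 0 < ε → ∃ᶠ n : ℕ in atTop, (1 - ε) * Nat.primeCounting n ≤ M β n :=
      fun ε hε => many_zero_of_windows hβ (h1 hβ) hε
    refine ⟨h1 hβ, h3, fun v ε hv hε => ?_⟩
    refine limit_points (fun v => frequently_large (θ := 1 - 1 / 2) (by norm_num)
      (h3 (1 / 2) (by norm_num)) v) (h2 hβ) hv hε
  · refine (dim_many ht0 ht1 ha hab c hc).trans (dimH_mono ?_)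
    rintro β ⟨h1, h2⟩
    exact ⟨h2, h1⟩
  · exact dim_fail ha hab c hc

end Pool.Agent.Results.MP_9b2bac_nt.GenericAmplitudes
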