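import Mathlib
import Pool.Agent.U916.KF.Spec

set_option autoImplicit false

/-!
# Mersenne numbers with exactly `k` prime factors: the law for almost every pair (base, amplitude)

For real `α > 1`, `β > 0` and a prime `p` let `W α β p` be the `p`-rough part (the product, with
multiplicity, of the prime factors larger than `p`) of `⌊β α ^ p - 1⌋`, and let `N k α β n` be the
number of primes `p ≤ n` for which `W α β p` has exactly `k` prime factors, counted with
multiplicity.  At `(α, β) = (2, 1)` the number `W 2 1 p` is the Mersenne number `2 ^ p - 1`, so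
`N 1 2 1` is the counting function of the question and `N k 2 1 n` is the number of primes `p ≤ n`
for which the Mersenne number `2 ^ p - 1` is a product of exactly `k` primes.

We prove that for Lebesgue almost every pair `(α, β)` with `α > 1` and `β > 0`, for all `k ≥ 1`
at once, `N k α β n ~ e ^ γ (log n) ^ k / (k! log α)`.

Proof.  For `k` prime factors the mean of the indicator over a window of levels is obtained from a
recursion in the style of Landau: the sum of `1 / m` over the `m` of a window with `k + 1` prime
factors larger than `p`, weighted by the logarithm of the rough part, is a sum over `m = q n`, `q`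
prime, `n` with `k` such factors.  The second moment over the pairs and the passage to almost every
pair follow the case `k = 1` of the starting library, with the weights `(log p) ^ k / p`.
-/

namespace Pool.Agent.Results.MP_9b2bac_nt.KPrimeFactors

open Filter Topology MeasureTheory
open ArithmeticFunction (cardFactors)

/-- The product, with multiplicity, of the prime factors of `m` that are larger than `p`. -/
def roughPart (p m : ℕ) : ℕ := (m.primeFactorsList.filter (fun r => p < r)).prod

/-- The `p`-rough part of `⌊β α ^ p - 1⌋`. -/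
noncomputable def W (α β : ℝ) (p : ℕ) : ℕ := roughPart p ⌊β * α ^ p - 1⌋₊

/-- The number of primes `p ≤ n` for which `W α β p` has exactly `k` prime factors, counted with
multiplicity. -/
noncomputable def N (k : ℕ) (α β : ℝ) (n : ℕ) : ℕ :=
  ((Finset.range (n + 1)).filter (fun p => p.Prime ∧ cardFactors (W α β p) = k)).card

/-- At `(2, 1)` the number `W` is the Mersenne number. -/
lemma W_mersenne {p : ℕ} (hp : p.Prime) : W 2 1 p = 2 ^ p - 1 := by
  have hpd : ¬ (p : ℤ) ∣ (2 : ℤ) - 1 := by
    intro h
    have h1 : (p : ℤ) ∣ 1 := by simpa using h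
    have h2 : p ∣ 1 := by exact_mod_cast h1
    exact hp.one_lt.ne' (Nat.dvd_one.1 h2)
  have h := Pool.Agent.H447R2.ML.rough_quot (a := 2) (b := 1) (by norm_num) (by norm_num)
    (by norm_num) hp hpd (x := (1 : ℝ) * 2 ^ p - 1) (by norm_num)
  have hgeom : (∑ i ∈ Finset.range p, (2 : ℤ) ^ i * 1 ^ (p - 1 - i)) * (2 - 1) =
      (2 : ℤ) ^ p - 1 ^ p := (Commute.all (2 : ℤ) 1).geom_sum₂_mul p
  have h4 : W 2 1 p = Pool.Agent.H305R2.roughPart p ⌊(1 : ℝ) * 2 ^ p - 1⌋₊ := rfl
  rw [← h4] at h
  have h5 : W 2 1 p + 1 = 2 ^ p := by
    have : ((W 2 1 p + 1 : ℕ) : ℤ) = ((2 ^ p : ℕ) : ℤ) := by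
      push_cast
      norm_num at h hgeom ⊢
      linarith
    exact_mod_cast this
  omega

theorem result :
    -- at `(2, 1)` the numbers counted are the Mersenne numbers
    (∀ k n : ℕ, N k 2 1 n = ((Finset.range (n + 1)).filter
      (fun p => p.Prime ∧ cardFactors (2 ^ p - 1) = k)).card) ∧
    (∀ n : ℕ, N 1 2 1 n =
      ((Finset.range (n + 1)).filter (fun p => p.Prime ∧ (2 ^ p - 1).Prime)).card) ∧
    -- the law at almost every pair, for all `k` at once
    (∀ᵐ z : ℝ × ℝ, 1 < z.1 → 0 < z.2 → ∀ k : ℕ, 1 ≤ k →
      Tendsto (fun n : ℕ => (N k z.1 z.2 n : ℝ) / Real.log n ^ k) atTop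
        (𝓝 (Real.exp Real.eulerMascheroniConstant / (k.factorial * Real.log z.1)))) := by
  have h0 : ∀ k n : ℕ, N k 2 1 n = ((Finset.range (n + 1)).filter
      (fun p => p.Prime ∧ cardFactors (2 ^ p - 1) = k)).card := by
    intro k n
    unfold N
    congr 1
    refine Finset.filter_congr fun p _ => and_congr_right fun hp => ?_
    rw [W_mersenne hp]
  refine ⟨h0, fun n => ?_, ?_⟩
  · rw [h0]
    congr 1
    refine Finset.filter_congr fun p _ => and_congr_right fun hp => ?_
    exact ArithmeticFunction.cardFactors_eq_one_iff_prime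
  · have h := Pool.Agent.U916.KF.law' (g := fun _ => -1) (κ := 1) (C := 1) le_rfl
      (by intro p; simp)
    filter_upwards [h] with z hz h1 h2 k hk
    refine (hz h1 h2 k hk).congr fun n => ?_
    unfold N W
    simp only [← sub_eq_add_neg]
    rfl

end Pool.Agent.Results.MP_9b2bac_nt.KPrimeFactors
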