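import Mathlib
import Pool.Agent.U310.Mers.Main2

set_option autoImplicit false

/-!
# The Lenstra-Pomerance-Wagstaff law in random models of the primes with a sieve

The question is whether the number `M(n)` of primes `p ≤ n` with `2 ^ p - 1` prime satisfies
`M(n) / log n → e ^ γ / log 2`.  We answer it in random models of the primes: the natural numbers are decided
one after the other, no `m` with a prime factor at most `z(m)` is chosen, and the conditional
probability of choosing `m + 1` (without prime factors at most `z(m + 1)`) given the past is asymptotic to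
`∏_{q ≤ z(m + 1)} (1 - 1/q)⁻¹ / log m`.  No independence and no rate is assumed.

The limit exists and is `e ^ γ / log 2` whenever `z(m) = o(log m log log m)` and `log z(m) ~ log log m`.
The arithmetic fact behind it, proved here with Selberg's sieve, is that for almost all primes `p` the number
`2 ^ p - 1` has no prime factor `q = o(p log p)`.
-/

open MeasureTheory Filter
open scoped Topology

namespace Pool.Agent.Results.MP_9b2bac_nt.RandomSieveModels

/-- `∏_{q ≤ x} (1 - 1/q)⁻¹`, `q` prime -/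
noncomputable def W (x : ℕ) : ℝ := ∏ q ∈ (Finset.Icc 1 x).filter Nat.Prime, (1 - (q : ℝ)⁻¹)⁻¹

/-- `m` has no prime factor at most `z m` -/
def Rough (z : ℕ → ℕ) (m : ℕ) : Prop := ∀ q, q.Prime → q ≤ z m → ¬ q ∣ m

/-- A random model of the primes with sieve level `z`.  `S n` is the event that `n` is chosen; it is adapted
to the filtration `ℱ`; no `n` with a prime factor at most `z n` is chosen; almost surely the conditional
probability of `S (n + 1)` given `ℱ n`, times `log n / W (z (n + 1))`, tends to `1` along the `n` for which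
`n + 1` has no prime factor at most `z (n + 1)`. -/
structure Model {Ω : Type} [mΩ : MeasurableSpace Ω] (μ : Measure Ω) (ℱ : Filtration ℕ mΩ)
    (S : ℕ → Set Ω) (z : ℕ → ℕ) : Prop where
  adapted : ∀ n, MeasurableSet[ℱ n] (S n)
  sieved : ∀ n, ¬ Rough z n → S n = ∅
  density : ∀ᵐ ω ∂μ, Tendsto (fun n : ℕ =>
    (μ[(S (n + 1)).indicator (fun _ => (1 : ℝ)) | ℱ n]) ω * Real.log n / W (z (n + 1)))
    (atTop ⊓ 𝓟 {n : ℕ | Rough z (n + 1)}) (𝓝 1)

/-- the number of primes `p ≤ n` in `E` with `2 ^ p - 1 ∈ S` -/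
noncomputable def M (S E : Set ℕ) (n : ℕ) : ℕ := {p | p ≤ n ∧ p.Prime ∧ p ∈ E ∧ 2 ^ p - 1 ∈ S}.ncard

open Classical in
/-- `∑ log p / p` over the primes `p ≤ n` in `E` -/
noncomputable def L (E : Set ℕ) (n : ℕ) : ℝ :=
  ∑ p ∈ (Finset.Icc 1 n).filter (fun p => p.Prime ∧ p ∈ E), Real.log p / p

open Classical in
/-- the expected number: `∑ W (z (2 ^ p - 1)) / (p log 2)` over the primes `p ≤ n` in `E` for which
`2 ^ p - 1` has no prime factor at most `z (2 ^ p - 1)` -/
noncomputable def V (z : ℕ → ℕ) (E : Set ℕ) (n : ℕ) : ℝ :=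
  ∑ p ∈ (Finset.Icc 1 n).filter (fun p => p.Prime ∧ p ∈ E ∧ Rough z (2 ^ p - 1)),
    W (z (2 ^ p - 1)) / (p * Real.log 2)

/-- **The Lenstra-Pomerance-Wagstaff law in random models with a sieve.**

(1) For almost all primes `p` (in the sense of relative density) the number `2 ^ p - 1` has no prime factor
`q ≤ g(p) p log p`, for every `g → 0`.  (This concerns the actual Mersenne numbers.)

In every random model with sieve level `z`, for every set `E` of exponents:

(2) If `W (z m) < log m` for all large `m` and `V z E → ∞`, then almost surely `M(n) / V z E n → 1`, where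
`M(n)` is the number of primes `p ≤ n` in `E` with `2 ^ p - 1` chosen; if `V z E` is bounded, then almost surely
only finitely many such `2 ^ p - 1` are chosen.

(3) If `log z(m) / log log m → θ > 0`: almost surely, for every real `ℓ`, the ratio `M(n) / log n` tends to
`(θ e ^ γ / log 2) ℓ` if and only if the set of all `p ∈ E` for which `2 ^ p - 1` has no prime factor at most
`z(2 ^ p - 1)` has relative logarithmic density `ℓ` in the primes.

(4) If moreover `z(m) / (log m log log m) → 0` and `E` has relative logarithmic density `d`, then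
`M(n) / log n → d θ e ^ γ / log 2` almost surely.  In particular, for `θ = 1` and all primes,
`M(n) / log n → e ^ γ / log 2` almost surely. -/
theorem result :
    (∀ g : ℕ → ℝ, Tendsto g atTop (𝓝 0) →
      Tendsto (fun n : ℕ => ({p : ℕ | p ≤ n ∧ p.Prime ∧ ∃ q : ℕ, q.Prime ∧ q ∣ 2 ^ p - 1 ∧
        (q : ℝ) ≤ g p * (p * Real.log p)}.ncard : ℝ) / (n / Real.log n)) atTop (𝓝 0)) ∧
    ∀ {Ω : Type} [mΩ : MeasurableSpace Ω] (μ : Measure Ω) [IsProbabilityMeasure μ]
      (ℱ : Filtration ℕ mΩ) (S : ℕ → Set Ω) (z : ℕ → ℕ), Model μ ℱ S z →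
    -- (2)
    ((∀ᶠ m : ℕ in atTop, W (z m) < Real.log m) → ∀ E : Set ℕ,
      (Tendsto (V z E) atTop atTop →
        ∀ᵐ ω ∂μ, Tendsto (fun n => (M {k | ω ∈ S k} E n : ℝ) / V z E n) atTop (𝓝 1)) ∧
      ((∃ C : ℝ, ∀ n, V z E n ≤ C) →
        ∀ᵐ ω ∂μ, {p | p.Prime ∧ p ∈ E ∧ ω ∈ S (2 ^ p - 1)}.Finite)) ∧
    ∀ θ : ℝ, 0 < θ → Tendsto (fun m : ℕ => Real.log (z m) / Real.log (Real.log m)) atTop (𝓝 θ) →
    -- (3)
    (∀ E : Set ℕ, ∀ᵐ ω ∂μ, ∀ ℓ : ℝ,
      Tendsto (fun n => L (E ∩ {p | Rough z (2 ^ p - 1)}) n / Real.log n) atTop (𝓝 ℓ) ↔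
        Tendsto (fun n => (M {k | ω ∈ S k} E n : ℝ) / Real.log n) atTop
          (𝓝 (θ * Real.exp Real.eulerMascheroniConstant / Real.log 2 * ℓ))) ∧
    -- (4)
    (Tendsto (fun m : ℕ => (z m : ℝ) / (Real.log m * Real.log (Real.log m))) atTop (𝓝 0) →
      (∀ (E : Set ℕ) (d : ℝ), Tendsto (fun n => L E n / Real.log n) atTop (𝓝 d) →
        ∀ᵐ ω ∂μ, Tendsto (fun n => (M {k | ω ∈ S k} E n : ℝ) / Real.log n) atTop
          (𝓝 (θ * Real.exp Real.eulerMascheroniConstant / Real.log 2 * d))) ∧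
      ∀ᵐ ω ∂μ, Tendsto (fun n : ℕ => ({p : ℕ | p ≤ n ∧ p.Prime ∧ ω ∈ S (2 ^ p - 1)}.ncard : ℝ) / Real.log n) atTop
          (𝓝 (θ * Real.exp Real.eulerMascheroniConstant / Real.log 2))) := by
  refine ⟨Pool.Agent.U310.Mers.almost_all, ?_⟩
  intro Ω mΩ μ hμ ℱ S z hM
  have hprof : (∀ᶠ n : ℕ in atTop, Pool.Agent.U310.Mers.W (z n) / Real.log n < 1) →
      ∀ᵐ ω ∂μ, ∀ ε : ℝ, 0 < ε → ∀ᶠ n : ℕ in atTop,
        |Pool.Agent.R528.RM.dens μ ℱ S n ω - Pool.Agent.U310.Mers.rho1 z (n + 1)| ≤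
          ε * Pool.Agent.U310.Mers.rho1 z (n + 1) :=
    fun h => Pool.Agent.U310.Mers.profile z h hM.sieved hM.density
  refine ⟨?_, ?_⟩
  · intro hW E
    have hW' : ∀ᶠ n : ℕ in atTop, Pool.Agent.U310.Mers.W (z n) / Real.log n < 1 := by
      filter_upwards [hW, eventually_gt_atTop 1] with n h1 h2
      rw [div_lt_one (Real.log_pos (by exact_mod_cast h2))]
      exact h1
    refine ⟨fun h => ?_, fun h => ?_⟩
    · exact Pool.Agent.U310.Mers.law_inf hM.adapted z hW' (hprof hW') E h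
    · obtain ⟨C, hC⟩ := h
      exact Pool.Agent.U310.Mers.law_fin hM.adapted z hW' (hprof hW') E C hC
  · intro θ hθ hz
    have hW' := Pool.Agent.U310.Mers.W_small z θ hθ hz
    have h3 : ∀ E : Set ℕ, ∀ᵐ ω ∂μ, ∀ ℓ : ℝ,
      Tendsto (fun n => L (E ∩ {p | Rough z (2 ^ p - 1)}) n / Real.log n) atTop (𝓝 ℓ) ↔
        Tendsto (fun n => (M {k | ω ∈ S k} E n : ℝ) / Real.log n) atTop
          (𝓝 (θ * Real.exp Real.eulerMascheroniConstant / Real.log 2 * ℓ)) :=
      fun E => Pool.Agent.U310.Mers.transfer hM.adapted z θ hθ hz (hprof hW') E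
    refine ⟨h3, fun hz0 => ?_⟩
    have h4 : ∀ (E : Set ℕ) (d : ℝ), Tendsto (fun n => L E n / Real.log n) atTop (𝓝 d) →
        ∀ᵐ ω ∂μ, Tendsto (fun n => (M {k | ω ∈ S k} E n : ℝ) / Real.log n) atTop
          (𝓝 (θ * Real.exp Real.eulerMascheroniConstant / Real.log 2 * d)) := by
      intro E d hd
      filter_upwards [h3 E] with ω hω
      exact (hω d).1 (Pool.Agent.U310.Mers.rough_full z hz0 E d hd)
    refine ⟨h4, ?_⟩
    filter_upwards [h4 Set.univ 1 Pool.Agent.U310.Mers.L_univ] with ω hω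
    rw [mul_one] at hω
    refine hω.congr fun n => ?_
    have : {p | p ≤ n ∧ p.Prime ∧ p ∈ Set.univ ∧ 2 ^ p - 1 ∈ {k | ω ∈ S k}} =
        {p | p ≤ n ∧ p.Prime ∧ ω ∈ S (2 ^ p - 1)} := by
      ext p
      constructor
      · rintro ⟨h1, h2, -, h3⟩
        exact ⟨h1, h2, h3⟩
      · rintro ⟨h1, h2, h3⟩
        exact ⟨h1, h2, trivial, h3⟩
    unfold M
    rw [this]

end Pool.Agent.Results.MP_9b2bac_nt.RandomSieveModels
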