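import Mathlib
import Pool.Agent.U442.TA.SysB
import Pool.Agent.W66.LU
import Pool.Agent.TH888.R.Base

set_option autoImplicit false

/-!
# The law for almost every 2-adic unit with a square root error term, for sets of exponents

For a 2-adic integer `α` and a prime `p` let `W α p` be the `p`-rough part (the product, with
multiplicity, of the prime factors larger than `p`) of the residue of `α` modulo `2 ^ p` in
`[0, 2 ^ p)`.  For `α = -1` this is the Mersenne number `2 ^ p - 1` itself.  For a set `S` let
`M S α n` be the number of primes `p ≤ n` in `S` with `W α p` prime, and let `V S n` be the sum of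
`log p / p` over the primes `p ≤ n` in `S`.  We prove, for the Haar measure on the 2-adic integers:

* for almost every 2-adic unit `α`,
  `M α n = (e ^ γ / log 2) log n + O((log n) ^ (1/2) (log log n) ^ (5/2))`;
* for every set `S` with `V S n → ∞` and almost every 2-adic unit `α`,
  `M S α n = (e ^ γ / log 2) V S n + O((V L) ^ (1/2) (log (V L)) ^ 2)`, where `V = V S n` and
  `L = log log n`;
* for every set `S` and almost every 2-adic unit `α`, infinitely many primes `p` of `S` have `W α p`
  prime if and only if `V S n → ∞`.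
-/

namespace Pool.Agent.Results.MP_9b2bac_nt.TwoAdicErrorTerm

open Filter Topology MeasureTheory Asymptotics

/-- The product, with multiplicity, of the prime factors of `m` that are larger than `p`. -/
def roughPart (p m : ℕ) : ℕ := (m.primeFactorsList.filter (fun r => p < r)).prod

/-- The `p`-rough part of the residue of the 2-adic integer `α` modulo `2 ^ p`. -/
noncomputable def W (α : ℤ_[2]) (p : ℕ) : ℕ := roughPart p (PadicInt.toZModPow p α).val

open Classical in
/-- The number of primes `p ≤ n` in the set `S` for which `W α p` is prime. -/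
noncomputable def M (S : Set ℕ) (α : ℤ_[2]) (n : ℕ) : ℕ :=
  ((Finset.range (n + 1)).filter (fun p => p.Prime ∧ p ∈ S ∧ (W α p).Prime)).card

open Classical in
/-- The sum of `log p / p` over the primes `p ≤ n` in the set `S`. -/
noncomputable def V (S : Set ℕ) (n : ℕ) : ℝ :=
  ∑ p ∈ (Finset.range (n + 1)).filter (fun p => p.Prime ∧ p ∈ S), Real.log p / p

lemma V_eq (S : Set ℕ) (n : ℕ) : V S n = Pool.Agent.TH888.R.VS S n := by
  classical
  unfold V Pool.Agent.TH888.R.VS
  rw [Finset.sum_filter]
  refine Finset.sum_congr rfl fun p _ => ?_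
  by_cases h : p.Prime ∧ p ∈ S
  · rw [if_pos h, if_pos ⟨h.2, h.1⟩]
    rfl
  · rw [if_neg h, if_neg fun h1 => h ⟨h1.2, h1.1⟩]

lemma W_neg_one {p : ℕ} (hp : p.Prime) : W (-1) p = 2 ^ p - 1 := by
  have h1 : (PadicInt.toZModPow p (-1 : ℤ_[2])).val = 2 ^ p - 1 := by
    rw [map_neg, map_one]
    have h2 : 1 ≤ 2 ^ p := Nat.one_le_two_pow
    have h3 : (-1 : ZMod (2 ^ p)) = ((2 ^ p - 1 : ℕ) : ZMod (2 ^ p)) := by
      rw [Nat.cast_sub h2, ZMod.natCast_self, Nat.cast_one, zero_sub]
    rw [h3, ZMod.val_natCast, Nat.mod_eq_of_lt (by omega)]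
  have h2 : W (-1) p = Pool.Agent.H305R2.roughPart p (PadicInt.toZModPow p (-1 : ℤ_[2])).val := rfl
  rw [h2, h1, Pool.Agent.W66L.rough_mersenne hp]

lemma M_eq (S : Set ℕ) (α : ℤ_[2]) (n : ℕ) :
    M S α n = Pool.Agent.TH888.R.cS S (fun p => Pool.Agent.W66L.res 2 p α) n := by
  classical
  unfold M Pool.Agent.TH888.R.cS
  rfl

/-- The counting function at `α = -1` is that of the Mersenne primes; for almost every 2-adic unit
the law holds with a square root error term, for the set of all primes and for every set of primes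
of divergent weight; and the exponents in a set are infinitely many exactly when the weight of the
set diverges. -/
theorem result :
    (∀ n : ℕ, M Set.univ (-1) n =
      ((Finset.range (n + 1)).filter (fun p => p.Prime ∧ (2 ^ p - 1).Prime)).card) ∧
    (∀ [MeasurableSpace ℤ_[2]] [BorelSpace ℤ_[2]] (μ : Measure ℤ_[2]) [μ.IsAddHaarMeasure],
      (∀ᵐ α : ℤ_[2] ∂μ, IsUnit α →
        (fun n : ℕ => (M Set.univ α n : ℝ) -
          Real.exp Real.eulerMascheroniConstant / Real.log 2 * Real.log n) =O[atTop]
        (fun n : ℕ => Real.sqrt (Real.log n) * (Real.log (Real.log n)) ^ ((5 : ℝ) / 2))) ∧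
      (∀ S : Set ℕ, Tendsto (V S) atTop atTop → ∀ᵐ α : ℤ_[2] ∂μ, IsUnit α →
        (fun n : ℕ => (M S α n : ℝ) -
          Real.exp Real.eulerMascheroniConstant / Real.log 2 * V S n) =O[atTop]
        (fun n : ℕ => Real.sqrt (V S n * Real.log (Real.log n)) *
          (Real.log (V S n * Real.log (Real.log n))) ^ 2)) ∧
      (∀ S : Set ℕ, ∀ᵐ α : ℤ_[2] ∂μ, IsUnit α →
        ({p : ℕ | p.Prime ∧ p ∈ S ∧ (W α p).Prime}.Infinite ↔ Tendsto (V S) atTop atTop))) := by
  have hV : ∀ S, V S = Pool.Agent.TH888.R.VS S := fun S => funext fun n => V_eq S n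
  refine ⟨fun n => ?_, ?_⟩
  · unfold M
    congr 1
    ext p
    simp only [Finset.mem_filter, Set.mem_univ, true_and]
    exact and_congr_right fun _ => and_congr_right fun hp => by rw [W_neg_one hp]
  · intro _ _ μ _
    have hpt : ∀ S : Set ℕ, ∀ᵐ α : ℤ_[2] ∂μ, IsUnit α → Pool.Agent.TH888.R.Pt
        (fun p => Pool.Agent.W66L.res 2 p α)
        (Real.exp Real.eulerMascheroniConstant / Real.log 2) S := by
      intro S
      have h := Pool.Agent.U442.TA.pt_full (μ := μ) le_rfl (Pool.Agent.W66L.full_padic 2 μ) S
      filter_upwards [h] with α hα hu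
      have hc : (Pool.Agent.W66L.res 2 1 α).Coprime 2 := by
        unfold Pool.Agent.W66L.res
        have h1 : IsUnit (PadicInt.toZModPow 1 α) := hu.map _
        have h2 := ZMod.isUnit_iff_coprime (PadicInt.toZModPow 1 α).val (2 ^ 1)
        rw [ZMod.natCast_zmod_val] at h2
        simpa using h2.1 h1
      have h3 := hα hc
      simp only [Nat.cast_ofNat] at h3
      exact h3
    refine ⟨?_, fun S hS => ?_, fun S => ?_⟩
    · filter_upwards [hpt Set.univ] with α hα h0
      obtain ⟨B, hB, h⟩ := (hα h0).law Pool.Agent.TH888.R.VS_univ_tendsto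
      simp only [M_eq]
      exact Pool.Agent.TH888.R.bigO_all hB h
    · rw [hV] at hS ⊢
      filter_upwards [hpt S] with α hα h0
      obtain ⟨B, hB, h⟩ := (hα h0).law hS
      simp only [M_eq]
      exact Pool.Agent.TH888.R.bigO_set hB hS h
    · rw [hV]
      filter_upwards [hpt S] with α hα h0
      constructor
      · intro hi
        by_contra hn
        exact hi ((hα h0).fin hn)
      · intro hT
        exact (hα h0).inf hT

end Pool.Agent.Results.MP_9b2bac_nt.TwoAdicErrorTerm
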